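import Pool.Agent.Helper60.SB.Defs3
import Pool.Agent.Helper22.SB.F0

/-! Module U4 of MP_7fc85e_an (stage 2): from `L_2` to `L_∞`. -/

open Finset MeasureTheory
open scoped ENNReal Real
open Pool.Agent.Helper60.SB

namespace Pool.Agent.Helper36.SB

lemma isProb_tor1 : IsProbabilityMeasure tor1 := by
  constructor
  unfold tor1
  rw [Measure.smul_apply, Measure.restrict_apply_univ, Real.volume_Ico, sub_zero, smul_eq_mul]
  refine ENNReal.inv_mul_cancel ?_ ENNReal.ofReal_ne_top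
  rw [ne_eq, ENNReal.ofReal_eq_zero, not_le]
  exact Real.two_pi_pos

lemma isProb_tor (d : ℕ) : IsProbabilityMeasure (tor d) := by
  haveI := isProb_tor1
  unfold tor
  infer_instance

lemma ex_eq_prod {d : ℕ} (k : Fin d → ℤ) (x : Fin d → ℝ) :
    ex k x = ∏ j, Complex.exp (Complex.I * (k j : ℂ) * (x j : ℂ)) := by
  unfold ex
  rw [Finset.mul_sum, Complex.exp_sum]
  refine Finset.prod_congr rfl fun j _ => ?_
  rw [mul_assoc]

lemma ex_mul {d : ℕ} (k l : Fin d → ℤ) (x : Fin d → ℝ) : ex k x * ex l x = ex (k + l) x := by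
  unfold ex
  rw [← Complex.exp_add, ← mul_add, ← Finset.sum_add_distrib]
  congr 2
  refine Finset.sum_congr rfl fun j _ => ?_
  simp only [Pi.add_apply]
  push_cast
  ring

lemma continuous_ex {d : ℕ} (k : Fin d → ℤ) : Continuous (ex k) := by
  unfold ex
  fun_prop

lemma integral_ex {d : ℕ} (k : Fin d → ℤ) : ∫ x, ex k x ∂(tor d) = if k = 0 then 1 else 0 := by
  haveI := isProb_tor1
  have h1 : ∫ x, ex k x ∂(tor d) =
      ∏ j, ∫ y, Complex.exp (Complex.I * (k j : ℂ) * (y : ℂ)) ∂tor1 := by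
    unfold tor
    rw [← integral_fintype_prod_eq_prod]
    refine integral_congr_ae (Filter.Eventually.of_forall fun x => ?_)
    exact ex_eq_prod k x
  rw [h1]
  simp only [Pool.Agent.Helper22.SB.exp_integral]
  by_cases hk : k = 0
  · subst hk
    simp
  · rw [if_neg hk]
    have : ∃ j, k j ≠ 0 := by
      by_contra hcon
      push Not at hcon
      exact hk (funext hcon)
    obtain ⟨j, hj⟩ := this
    exact Finset.prod_eq_zero (Finset.mem_univ j) (if_neg hj)

lemma integrable_ex {d : ℕ} (k : Fin d → ℤ) : Integrable (ex k) (tor d) := by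
  haveI := isProb_tor d
  refine Integrable.of_bound (continuous_ex k).aestronglyMeasurable 1 ?_
  exact Filter.Eventually.of_forall fun x => (norm_ex k x).le

lemma fc_TT {d : ℕ} (Q : Finset (Fin d → ℤ)) (y : Q × Bool → ℝ) (k : Q) :
    fc (TT Q y) k = cco y k := by
  unfold fc
  have h1 : ∀ x, TT Q y x * ex (-(k : Fin d → ℤ)) x =
      ∑ l : Q, cco y l * ex ((l : Fin d → ℤ) + -(k : Fin d → ℤ)) x := by
    intro x
    unfold TT
    rw [Finset.sum_mul]
    refine Finset.sum_congr rfl fun l _ => ?_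
    rw [mul_assoc, ex_mul]
  simp only [h1]
  rw [integral_finset_sum _ fun l _ => (integrable_ex _).const_mul _]
  have h2 : ∀ l : Q, ∫ x, cco y l * ex ((l : Fin d → ℤ) + -(k : Fin d → ℤ)) x ∂(tor d) =
      if l = k then cco y l else 0 := by
    intro l
    rw [integral_const_mul, integral_ex]
    by_cases hl : l = k
    · subst hl
      simp
    · have : ¬ (l : Fin d → ℤ) + -(k : Fin d → ℤ) = 0 := by
        intro h
        exact hl (Subtype.ext (add_neg_eq_zero.1 h))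
      rw [if_neg this, if_neg hl, mul_zero]
  simp only [h2]
  simp

lemma norm_cco_le {d : ℕ} (Q : Finset (Fin d → ℤ)) (y : Q × Bool → ℝ) (k : Q) :
    ‖cco y k‖ ≤ supn Q y := by
  haveI := isProb_tor d
  rw [← fc_TT]
  unfold fc
  refine (norm_integral_le_integral_norm _).trans ?_
  have h1 : ∀ x, ‖TT Q y x * ex (-(k : Fin d → ℤ)) x‖ ≤ supn Q y := by
    intro x
    rw [norm_mul, norm_ex, mul_one]
    exact le_supn Q y x
  calc ∫ x, ‖TT Q y x * ex (-(k : Fin d → ℤ)) x‖ ∂(tor d) ≤ ∫ _, supn Q y ∂(tor d) := by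
        refine integral_mono_of_nonneg (Filter.Eventually.of_forall fun x => norm_nonneg _)
          (integrable_const _) (Filter.Eventually.of_forall h1)
    _ = supn Q y := by simp

theorem abs_le_supn {d : ℕ} (Q : Finset (Fin d → ℤ)) (y : Q × Bool → ℝ) (i : Q × Bool) :
    |y i| ≤ supn Q y := by
  obtain ⟨k, b⟩ := i
  refine le_trans ?_ (norm_cco_le Q y k)
  cases b with
  | false =>
    have : (cco y k).re = y (k, false) := by simp [cco]
    rw [← this]
    exact Complex.abs_re_le_norm _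
  | true =>
    have : (cco y k).im = y (k, true) := by simp [cco]
    rw [← this]
    exact Complex.abs_im_le_norm _

/-- covering by one point when there is no coordinate -/
lemma cov_empty {ι : Type} [IsEmpty ι] (S : Set (ι → ℝ)) (q : Seminorm ℝ (ι → ℝ))
    {A K : ℝ} (hA : 0 ≤ A) (hK : 0 ≤ K) : Cov S (fun a y => q (a - y) ≤ A) K := by
  refine ⟨{0}, ?_, fun a _ => ⟨0, by simp, ?_⟩⟩
  · simpa using hK
  · have : a - 0 = 0 := Subsingleton.elim _ _
    simp only [this, map_zero]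
    exact hA

/-- composition of two coverings -/
lemma cov_add {ι : Type} (S : Set (ι → ℝ)) (q : Seminorm ℝ (ι → ℝ)) {A B K L : ℝ}
    (h1 : Cov S (fun a y => q (a - y) ≤ A) K)
    (h2 : Cov {y : ι → ℝ | q y ≤ A} (fun a y => q (a - y) ≤ B) L) :
    Cov S (fun a y => q (a - y) ≤ B) (K + L) := by
  classical
  obtain ⟨t, ht, hS⟩ := h1
  obtain ⟨u, hu, hB⟩ := h2
  refine ⟨Finset.image₂ (fun x y => x + y) t u, ?_, ?_⟩
  · have h3 : ((Finset.image₂ (fun x y => x + y) t u).card : ℝ) ≤ (t.card : ℝ) * u.card := by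
      exact_mod_cast Finset.card_image₂_le _ t u
    rw [Real.exp_add]
    exact h3.trans (mul_le_mul ht hu (Nat.cast_nonneg _) (Real.exp_pos _).le)
  · intro a ha
    obtain ⟨y, hy, hay⟩ := hS a ha
    obtain ⟨z, hz, hyz⟩ := hB (a - y) hay
    refine ⟨y + z, Finset.mem_image₂_of_mem hy hz, ?_⟩
    have : a - (y + z) = a - y - z := by abel
    show q (a - (y + z)) ≤ B
    rw [this]
    exact hyz

lemma Cov.mono' {V : Type*} {S : Set V} {R R' : V → V → Prop} {K K' : ℝ} (h : Cov S R K)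
    (hR : ∀ a y, R a y → R' a y) (hK : K ≤ K') : Cov S R' K' := by
  obtain ⟨t, ht, hS⟩ := h
  refine ⟨t, ht.trans (Real.exp_le_exp.2 hK), fun a ha => ?_⟩
  obtain ⟨y, hy, hay⟩ := hS a ha
  exact ⟨y, hy, hR a y hay⟩

/-- U4, with U1, U2, U3 as hypotheses -/
theorem l2linf_of
    (U1 : ∀ {ι : Type} [Fintype ι] (q : Seminorm ℝ (ι → ℝ)) (l : ℝ), 0 < l →
      ∫ y, q y ∂(gau ι) ≤ l → ∀ (ε : ℝ), 0 < ε →
      Cov {y : ι → ℝ | ∑ i, y i ^ 2 ≤ 1} (fun a y => q (a - y) ≤ ε)
        (8 * (l / ε) ^ 2 + Real.log 2))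
    (U2 : ∀ {ι : Type} [Fintype ι] (q : Seminorm ℝ (ι → ℝ)), (∀ y i, |y i| ≤ q y) →
      ∀ (ρ ε : ℝ), 0 ≤ ρ → 0 < ε →
      Cov {y : ι → ℝ | q y ≤ ρ} (fun a y => q (a - y) ≤ ε)
        (Fintype.card ι * Real.log (1 + 2 * ρ / ε)))
    (U3 : ∀ (d : ℕ), ∃ C : ℝ, 0 < C ∧ ∀ (m : ℕ) (Q : Finset (Fin d → ℤ)),
      (∀ k ∈ Q, ∀ j, |k j| ≤ 2 ^ m) →
      ∫ y, supn Q y ∂(gau (Q × Bool)) ≤ C * Real.sqrt (Q.card * (m + 1)))
    (d : ℕ) : ∃ C : ℝ, 1 ≤ C ∧ ∀ (m : ℕ) (Q : Finset (Fin d → ℤ)),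
    (∀ k ∈ Q, ∀ j, |k j| ≤ 2 ^ m) → ∀ j : ℕ,
    Cov {y : Q × Bool → ℝ | ∑ i, y i ^ 2 ≤ 1}
      (fun a y => supn Q (a - y) ≤ C * Real.sqrt (m + 1) * (2 : ℝ) ^ (-(j : ℝ)))
      (C * (1 + j) * Q.card + 1) ∧
    Cov {y : Q × Bool → ℝ | ∑ i, y i ^ 2 ≤ 1}
      (fun a y => supn Q (a - y) ≤ C * Real.sqrt (m + 1) * (2 : ℝ) ^ ((j : ℝ) / 2))
      (Q.card * (2 : ℝ) ^ (-(j : ℝ)) + 1) := by
  obtain ⟨C0, hC0, hU3⟩ := U3 d
  refine ⟨12 + 4 * C0, by linarith, ?_⟩
  intro m Q hQ j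
  have hlog2 : Real.log 2 ≤ 1 := by
    have := Real.log_two_lt_d9
    linarith
  have hj0 : (0 : ℝ) ≤ j := Nat.cast_nonneg j
  have hC1 : (0 : ℝ) < 12 + 4 * C0 := by linarith
  have hs : 0 < Real.sqrt ((m : ℝ) + 1) := Real.sqrt_pos.2 (by positivity)
  rcases Q.eq_empty_or_nonempty with hE | hNE
  · subst hE
    haveI : IsEmpty ((∅ : Finset (Fin d → ℤ)) × Bool) := by
      constructor
      rintro ⟨⟨k, hk⟩, _⟩
      exact absurd hk (Finset.notMem_empty k)
    constructor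
    · exact cov_empty _ _ (by positivity) (by positivity)
    · exact cov_empty _ _ (by positivity) (by positivity)
  · have hcard : (0 : ℝ) < Q.card := by exact_mod_cast hNE.card_pos
    have hl : 0 < C0 * Real.sqrt (Q.card * (m + 1)) :=
      mul_pos hC0 (Real.sqrt_pos.2 (by positivity))
    have hI := hU3 m Q hQ
    have hsq1 : Real.sqrt ((Q.card : ℝ) * (m + 1)) ^ 2 = Q.card * (m + 1) :=
      Real.sq_sqrt (by positivity)
    have hsq2 : Real.sqrt ((m : ℝ) + 1) ^ 2 = m + 1 := Real.sq_sqrt (by positivity)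
    have hm1 : (0 : ℝ) < (m : ℝ) + 1 := by positivity
    constructor
    · -- first part
      have hε0 : 0 < C0 * Real.sqrt ((m : ℝ) + 1) := mul_pos hC0 hs
      have h1 := U1 (supn Q) _ hl hI _ hε0
      have hp : (0 : ℝ) < (2 : ℝ) ^ (-(j : ℝ)) := Real.rpow_pos_of_pos two_pos _
      have hε : 0 < C0 * Real.sqrt ((m : ℝ) + 1) * (2 : ℝ) ^ (-(j : ℝ)) := mul_pos hε0 hp
      have h2 := U2 (supn Q) (abs_le_supn Q) _ _ hε0.le hε
      refine Cov.mono' (cov_add _ _ h1 h2) ?_ ?_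
      · intro a y hay
        refine hay.trans ?_
        have : C0 * Real.sqrt ((m : ℝ) + 1) ≤ (12 + 4 * C0) * Real.sqrt ((m : ℝ) + 1) := by
          apply mul_le_mul_of_nonneg_right _ hs.le
          linarith
        exact mul_le_mul_of_nonneg_right this hp.le
      · have e1 : (C0 * Real.sqrt ((Q.card : ℝ) * (m + 1)) / (C0 * Real.sqrt ((m : ℝ) + 1))) ^ 2 =
            Q.card := by
          rw [div_pow, mul_pow, mul_pow, hsq1, hsq2]
          field_simp
        have e2 : 2 * (C0 * Real.sqrt ((m : ℝ) + 1)) /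
            (C0 * Real.sqrt ((m : ℝ) + 1) * (2 : ℝ) ^ (-(j : ℝ))) = 2 * (2 : ℝ) ^ (j : ℝ) := by
          rw [Real.rpow_neg two_pos.le]
          field_simp
        have e3 : Real.log (1 + 2 * (2 : ℝ) ^ (j : ℝ)) ≤ 2 * (1 + j) := by
          have h3 : 1 + 2 * (2 : ℝ) ^ (j : ℝ) ≤ 2 ^ 2 * (2 : ℝ) ^ (j : ℝ) := by
            have : (1 : ℝ) ≤ (2 : ℝ) ^ (j : ℝ) := Real.one_le_rpow (by norm_num) hj0
            linarith
          have h4 : Real.log (1 + 2 * (2 : ℝ) ^ (j : ℝ)) ≤ Real.log (2 ^ 2 * (2 : ℝ) ^ (j : ℝ)) :=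
            Real.log_le_log (by positivity) h3
          rw [Real.log_mul (by norm_num) (by positivity), Real.log_pow,
            Real.log_rpow two_pos] at h4
          refine h4.trans ?_
          have h5 : 0 < Real.log 2 := Real.log_pos (by norm_num)
          push_cast
          nlinarith
        have e4 : (Fintype.card (Q × Bool) : ℝ) = 2 * Q.card := by
          rw [Fintype.card_prod, Fintype.card_bool, Fintype.card_coe]
          push_cast
          ring
        rw [e1, e2, e4]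
        have h6 : 2 * (Q.card : ℝ) * Real.log (1 + 2 * (2 : ℝ) ^ (j : ℝ)) ≤
            2 * Q.card * (2 * (1 + j)) := mul_le_mul_of_nonneg_left e3 (by positivity)
        have h7 : (0 : ℝ) ≤ Q.card * j := by positivity
        have h8 : 0 ≤ C0 * ((1 + j) * Q.card) := by positivity
        nlinarith
    · -- second part
      have hp : (0 : ℝ) < (2 : ℝ) ^ ((j : ℝ) / 2) := Real.rpow_pos_of_pos two_pos _
      have hε : 0 < 4 * C0 * Real.sqrt ((m : ℝ) + 1) * (2 : ℝ) ^ ((j : ℝ) / 2) := by positivity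
      have h1 := U1 (supn Q) _ hl hI _ hε
      refine Cov.mono' h1 ?_ ?_
      · intro a y hay
        refine hay.trans ?_
        apply mul_le_mul_of_nonneg_right _ hp.le
        apply mul_le_mul_of_nonneg_right _ hs.le
        linarith
      · have e0 : ((2 : ℝ) ^ ((j : ℝ) / 2)) ^ 2 = (2 : ℝ) ^ (j : ℝ) := by
          rw [← Real.rpow_natCast, ← Real.rpow_mul two_pos.le]
          congr 1
          push_cast
          ring
        have e1 : (C0 * Real.sqrt ((Q.card : ℝ) * (m + 1)) /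
            (4 * C0 * Real.sqrt ((m : ℝ) + 1) * (2 : ℝ) ^ ((j : ℝ) / 2))) ^ 2 =
            Q.card * (2 : ℝ) ^ (-(j : ℝ)) / 16 := by
          rw [div_pow, mul_pow, mul_pow, mul_pow, mul_pow, hsq1, hsq2, e0,
            Real.rpow_neg two_pos.le]
          field_simp
          ring
        rw [e1]
        have : 0 < (Q.card : ℝ) * (2 : ℝ) ^ (-(j : ℝ)) := by positivity
        linarith

end Pool.Agent.Helper36.SB
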