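import Pool.Agent.Helper60.SB.Defs4
import Pool.Agent.Helper60.SB.Link

/-! Module M12 of MP_7fc85e_an (stage 3A): covering by dual Sudakov and truncation. -/

open Finset MeasureTheory
open scoped ENNReal Real
open Pool.Agent.Helper60.SB

namespace Pool.Agent.Helper36.SB

/-- scaled dual Sudakov -/
lemma ball_cov {ι : Type} [Fintype ι] (q : Seminorm ℝ (ι → ℝ)) (l : ℝ) (hl : 0 < l)
    (hq : ∫ y, q y ∂(gau ι) ≤ l) (K : ℝ) (hK : 0 < K) (D : ℝ) (hD : 0 < D) :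
    ∃ t : Finset (ι → ℝ), (t.card : ℝ) ≤ Real.exp (8 * K + Real.log 2) ∧
      ∀ y : ι → ℝ, ∑ i, (y i) ^ 2 ≤ D ^ 2 → ∃ z ∈ t, q (y - z) ≤ D * l / Real.sqrt K := by
  classical
  have hsK : 0 < Real.sqrt K := Real.sqrt_pos.2 hK
  have h1 := dual_sudakov q l hl hq (l / Real.sqrt K) (by positivity)
  have e1 : (l / (l / Real.sqrt K)) ^ 2 = K := by
    rw [div_div_cancel₀ hl.ne', Real.sq_sqrt hK.le]
  rw [e1] at h1
  obtain ⟨t, ht, hS⟩ := h1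
  refine ⟨t.image (fun z => D • z), ?_, ?_⟩
  · refine le_trans ?_ ht
    exact_mod_cast Finset.card_image_le
  · intro y hy
    have h2 : (D⁻¹ • y) ∈ {y : ι → ℝ | ∑ i, y i ^ 2 ≤ 1} := by
      show ∑ i, (D⁻¹ • y) i ^ 2 ≤ 1
      have : ∑ i, (D⁻¹ • y) i ^ 2 = (D ^ 2)⁻¹ * ∑ i, (y i) ^ 2 := by
        rw [Finset.mul_sum]
        refine Finset.sum_congr rfl fun i _ => ?_
        simp only [Pi.smul_apply, smul_eq_mul]
        rw [mul_pow, inv_pow]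
      rw [this]
      calc (D ^ 2)⁻¹ * ∑ i, (y i) ^ 2 ≤ (D ^ 2)⁻¹ * D ^ 2 :=
            mul_le_mul_of_nonneg_left hy (by positivity)
        _ = 1 := inv_mul_cancel₀ (by positivity)
    obtain ⟨z, hz, hyz⟩ := hS _ h2
    refine ⟨D • z, Finset.mem_image_of_mem _ hz, ?_⟩
    have h3 : y - D • z = D • (D⁻¹ • y - z) := by
      rw [smul_sub, smul_smul, mul_inv_cancel₀ hD.ne', one_smul]
    rw [h3, map_smul_eq_mul, Real.norm_of_nonneg hD.le, mul_div_assoc]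
    exact mul_le_mul_of_nonneg_left hyz hD.le

theorem small_cov {ι : Type} [Fintype ι] (q : Seminorm ℝ (ι → ℝ)) (l : ℝ) (hl : 0 < l)
    (hq : ∫ y, q y ∂(gau ι) ≤ l) (𝒴 : Set (ι → ℝ)) (D Λ p : ℝ) (hD : 0 < D) (hΛ : 0 ≤ Λ)
    (h0 : ∀ y ∈ 𝒴, ∑ i, (y i) ^ 2 ≤ D ^ 2)
    (h1 : ∀ A : ℝ, 1 ≤ A → ∀ y ∈ 𝒴, ∃ u v : ι → ℝ, y = u + v ∧ q u ≤ Λ * A ∧
      ∑ i, (v i) ^ 2 ≤ D ^ 2 * A ^ (2 - p)) (K : ℝ) (hK : 0 < K) :
    Cov 𝒴 (fun a y => q (a - y) ≤ D * l / Real.sqrt K) (8 * K + Real.log 2) ∧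
    ∀ A : ℝ, 1 ≤ A → Cov 𝒴 (fun a y => q (a - y) ≤ Λ * A + D * A ^ (1 - p / 2) * l / Real.sqrt K)
      (8 * K + Real.log 2) := by
  have _ := hΛ
  constructor
  · obtain ⟨t, ht, hS⟩ := ball_cov q l hl hq K hK D hD
    exact ⟨t, ht, fun y hy => hS y (h0 y hy)⟩
  · intro A hA
    have hA0 : 0 < A := by linarith
    have hD' : 0 < D * A ^ (1 - p / 2) := mul_pos hD (Real.rpow_pos_of_pos hA0 _)
    obtain ⟨t, ht, hS⟩ := ball_cov q l hl hq K hK (D * A ^ (1 - p / 2)) hD'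
    refine ⟨t, ht, fun y hy => ?_⟩
    obtain ⟨u, v, huv, hu, hv⟩ := h1 A hA y hy
    have hv' : ∑ i, (v i) ^ 2 ≤ (D * A ^ (1 - p / 2)) ^ 2 := by
      have : (A ^ (1 - p / 2)) ^ 2 = A ^ (2 - p) := by
        rw [← Real.rpow_natCast, ← Real.rpow_mul hA0.le]
        congr 1
        push_cast
        ring
      rw [mul_pow, this]
      exact hv
    obtain ⟨z, hz, hvz⟩ := hS v hv'
    refine ⟨z, hz, ?_⟩
    have e : y - z = u + (v - z) := by rw [huv]; abel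
    show q (y - z) ≤ _
    rw [e]
    exact (map_add_le_add q u (v - z)).trans (add_le_add hu hvz)

end Pool.Agent.Helper36.SB
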