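import Pool.Agent.Helper36.SB.M12

/-! Module M13 of MP_7fc85e_an (stage 3A): covering numbers of the smooth levels. -/

open Finset MeasureTheory
open scoped ENNReal Real
open Pool.Agent.Helper60.SB

namespace Pool.Agent.Helper36.SB

lemma continuous_TT {d : ℕ} (Q : Finset (Fin d → ℤ)) (y : Q × Bool → ℝ) :
    Continuous (TT Q y) := by
  unfold TT
  exact continuous_finset_sum _ fun k _ => continuous_const.mul (continuous_ex _)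

lemma memLp_TT {d : ℕ} (Q : Finset (Fin d → ℤ)) (y : Q × Bool → ℝ) :
    MemLp (TT Q y) ⊤ (tor d) :=
  memLp_top_of_bound (continuous_TT Q y).aestronglyMeasurable (supn Q y)
    (Filter.Eventually.of_forall fun x => le_supn Q y x)

lemma TT_sub {d : ℕ} (Q : Finset (Fin d → ℤ)) (y z : Q × Bool → ℝ) (x : Fin d → ℝ) :
    TT Q (y - z) x = TT Q y x - TT Q z x := by
  have h : y - z = y + (-1 : ℝ) • z := by
    rw [neg_one_smul, sub_eq_add_neg]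
  rw [h, TT_add, TT_smul]
  push_cast
  ring

/-- from coverings of coefficient vectors to coverings of functions -/
lemma covF_of_cov {d : ℕ} (Q : Finset (Fin d → ℤ)) (S : Set ((Fin d → ℝ) → ℂ))
    (𝒴 : Set (Q × Bool → ℝ)) (h : ∀ g ∈ S, ∃ y ∈ 𝒴, g = TT Q y) {ε K : ℝ}
    (hC : Cov 𝒴 (fun a y => supn Q (a - y) ≤ ε) K) : CovF S ε K := by
  classical
  obtain ⟨t, ht, hS⟩ := hC
  refine ⟨t.image (TT Q), le_trans (by exact_mod_cast Finset.card_image_le) ht, ?_, ?_⟩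
  · intro g hg
    obtain ⟨y, _, rfl⟩ := Finset.mem_image.1 hg
    exact memLp_TT Q y
  · intro g hg
    obtain ⟨y, hy, rfl⟩ := h g hg
    obtain ⟨z, hz, hyz⟩ := hS y hy
    refine ⟨TT Q z, Finset.mem_image_of_mem _ hz, fun x => ?_⟩
    rw [← TT_sub]
    exact (le_supn Q (y - z) x).trans hyz

lemma CovF.mono' {d : ℕ} {S : Set ((Fin d → ℝ) → ℂ)} {ε ε' K K' : ℝ} (h : CovF S ε K)
    (hε : ε ≤ ε') (hK : K ≤ K') : CovF S ε' K' := by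
  obtain ⟨t, ht, hm, hS⟩ := h
  refine ⟨t, ht.trans (Real.exp_le_exp.2 hK), hm, fun f hf => ?_⟩
  obtain ⟨y, hy, hfy⟩ := hS f hf
  exact ⟨y, hy, fun x => (hfy x).trans hε⟩

lemma Qs_le (e m : ℕ) (k : Fin (e + 1) → ℤ) (hk : k ∈ Qs (e + 1) m) (j : Fin (e + 1)) :
    |k j| ≤ 2 ^ (m + e + 1) := by
  unfold Qs at hk
  rw [Finset.mem_biUnion] at hk
  obtain ⟨i, hi, hki⟩ := hk
  rw [Finset.mem_range] at hi
  refine (Qm_le (e + 1) (m + i) k hki j).trans ?_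
  exact pow_le_pow_right₀ (by norm_num) (by omega)

lemma log_two_le_one : Real.log 2 ≤ 1 := by
  have := Real.log_two_lt_d9
  linarith

lemma sqrt_shift (e m : ℕ) : Real.sqrt (((m + e + 1 : ℕ) : ℝ) + 1) ≤
    Real.sqrt (e + 2) * Real.sqrt ((m : ℝ) + 1) := by
  rw [← Real.sqrt_mul (by positivity)]
  apply Real.sqrt_le_sqrt
  push_cast
  have hm : (0 : ℝ) ≤ m := Nat.cast_nonneg m
  have he : (0 : ℝ) ≤ e := Nat.cast_nonneg e
  nlinarith [mul_nonneg he hm]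

/-- the coefficient set of a smooth level -/
def Ys (e : ℕ) (p a C : ℝ) (m : ℕ) : Set (Qs (e + 1) m × Bool → ℝ) :=
  {y | ∑ i, (y i) ^ 2 ≤ C ^ 2 * ((m : ℝ) + 1) ^ a ∧
    ∀ A : ℝ, 1 ≤ A → ∃ u v : Qs (e + 1) m × Bool → ℝ, y = u + v ∧
      (∀ x, ‖TT (Qs (e + 1) m) u x‖ ≤ C * A * ((m : ℝ) + 1) ^ e) ∧
      ∑ i, (v i) ^ 2 ≤ C ^ 2 * A ^ (2 - p) * ((m : ℝ) + 1) ^ a}

lemma SLev_sub (e : ℕ) (p a C : ℝ) (m : ℕ) : ∀ g ∈ SLev e p a C m,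
    ∃ y ∈ Ys e p a C m, g = TT (Qs (e + 1) m) y := by
  rintro g ⟨y, hg, h1, h2⟩
  exact ⟨y, ⟨h1, h2⟩, hg⟩

/-- the radius of the Euclidean ball -/
lemma D_sq (C a : ℝ) (m : ℕ) : (C * ((m : ℝ) + 1) ^ (a / 2)) ^ 2 = C ^ 2 * ((m : ℝ) + 1) ^ a := by
  rw [mul_pow, ← Real.rpow_natCast (((m : ℝ) + 1) ^ (a / 2)), ← Real.rpow_mul (by positivity)]
  congr 2
  push_cast
  ring

theorem slev_low_of
    (hcard : ∀ e : ℕ, ∃ C ≥ (1 : ℝ), ∀ m, ((Qs (e + 1) m).card : ℝ) ≤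
      C * ((m : ℝ) + 1) ^ e * 2 ^ m)
    (e : ℕ) (p a C : ℝ) (hC : 1 ≤ C) :
    ∃ C' ≥ 1, ∀ m j : ℕ, CovF (SLev e p a C m)
      (C' * ((m : ℝ) + 1) ^ (a / 2 + 1 / 2) * (2 : ℝ) ^ (-(j : ℝ)))
      (C' * (1 + j) * ((m : ℝ) + 1) ^ e * 2 ^ m + 1) := by
  obtain ⟨Cq, hCq, hcardQ⟩ := hcard e
  obtain ⟨C0, hC0, hl2⟩ := l2linf (e + 1)
  refine ⟨max (C * C0 * Real.sqrt (e + 2)) (C0 * Cq), ?_, fun m j => ?_⟩
  · refine le_max_of_le_right ?_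
    nlinarith
  · have hm1 : (0 : ℝ) < (m : ℝ) + 1 := by positivity
    set D : ℝ := C * ((m : ℝ) + 1) ^ (a / 2) with hD
    have hDpos : 0 < D := mul_pos (by linarith) (Real.rpow_pos_of_pos hm1 _)
    obtain ⟨t, ht, hS⟩ := (hl2 (m + e + 1) (Qs (e + 1) m) (Qs_le e m) j).1
    classical
    have hcov : Cov (Ys e p a C m) (fun x y => supn (Qs (e + 1) m) (x - y) ≤
        D * (C0 * Real.sqrt (((m + e + 1 : ℕ) : ℝ) + 1) * (2 : ℝ) ^ (-(j : ℝ))))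
        (C0 * (1 + j) * (Qs (e + 1) m).card + 1) := by
      refine ⟨t.image (fun z => D • z), le_trans (by exact_mod_cast Finset.card_image_le) ht, ?_⟩
      rintro y ⟨hy, _⟩
      rw [← D_sq, ← hD] at hy
      have h2 : (D⁻¹ • y) ∈ {y : Qs (e + 1) m × Bool → ℝ | ∑ i, y i ^ 2 ≤ 1} := by
        show ∑ i, (D⁻¹ • y) i ^ 2 ≤ 1
        have : ∑ i, (D⁻¹ • y) i ^ 2 = (D ^ 2)⁻¹ * ∑ i, (y i) ^ 2 := by
          rw [Finset.mul_sum]
          refine Finset.sum_congr rfl fun i _ => ?_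
          simp only [Pi.smul_apply, smul_eq_mul]
          rw [mul_pow, inv_pow]
        rw [this]
        calc (D ^ 2)⁻¹ * ∑ i, (y i) ^ 2 ≤ (D ^ 2)⁻¹ * D ^ 2 :=
              mul_le_mul_of_nonneg_left hy (by positivity)
          _ = 1 := inv_mul_cancel₀ (by positivity)
      obtain ⟨z, hz, hyz⟩ := hS _ h2
      refine ⟨D • z, Finset.mem_image_of_mem _ hz, ?_⟩
      show supn (Qs (e + 1) m) (y - D • z) ≤ _
      have h3 : y - D • z = D • (D⁻¹ • y - z) := by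
        rw [smul_sub, smul_smul, mul_inv_cancel₀ hDpos.ne', one_smul]
      rw [h3, map_smul_eq_mul, Real.norm_of_nonneg hDpos.le]
      exact mul_le_mul_of_nonneg_left hyz hDpos.le
    refine CovF.mono' (covF_of_cov _ _ _ (SLev_sub e p a C m) hcov) ?_ ?_
    · have h4 : ((m : ℝ) + 1) ^ (a / 2 + 1 / 2) =
          ((m : ℝ) + 1) ^ (a / 2) * Real.sqrt ((m : ℝ) + 1) := by
        rw [Real.rpow_add hm1, Real.sqrt_eq_rpow]
      have h5 := sqrt_shift e m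
      have h6 : (0 : ℝ) < (2 : ℝ) ^ (-(j : ℝ)) := Real.rpow_pos_of_pos two_pos _
      calc D * (C0 * Real.sqrt (((m + e + 1 : ℕ) : ℝ) + 1) * (2 : ℝ) ^ (-(j : ℝ)))
          ≤ D * (C0 * (Real.sqrt (e + 2) * Real.sqrt ((m : ℝ) + 1)) * (2 : ℝ) ^ (-(j : ℝ))) := by
            gcongr
        _ = C * C0 * Real.sqrt (e + 2) * ((m : ℝ) + 1) ^ (a / 2 + 1 / 2) *
            (2 : ℝ) ^ (-(j : ℝ)) := by
            rw [hD, h4]; ring
        _ ≤ _ := by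
            gcongr
            exact le_max_left _ _
    · have h7 := hcardQ m
      calc C0 * (1 + j) * (Qs (e + 1) m).card + 1
          ≤ C0 * (1 + j) * (Cq * ((m : ℝ) + 1) ^ e * 2 ^ m) + 1 := by gcongr
        _ = C0 * Cq * (1 + j) * ((m : ℝ) + 1) ^ e * 2 ^ m + 1 := by ring
        _ ≤ _ := by
            gcongr
            exact le_max_right _ _

/-- the two coverings at a fixed level, with explicit constants -/
lemma slev_aux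
    (hcard : ∀ e : ℕ, ∃ C ≥ (1 : ℝ), ∀ m, ((Qs (e + 1) m).card : ℝ) ≤
      C * ((m : ℝ) + 1) ^ e * 2 ^ m)
    (e : ℕ) (p a C : ℝ) (hC : 1 ≤ C) :
    ∃ C₁ ≥ 1, ∀ (m : ℕ) (K : ℝ), 0 < K →
      CovF (SLev e p a C m)
        (C₁ * ((m : ℝ) + 1) ^ e * Real.sqrt (((m : ℝ) + 1) ^ (a + 1 - e) * 2 ^ m / K)) (K + 1) ∧
      ∀ A : ℝ, 1 ≤ A → CovF (SLev e p a C m)
        (C * ((m : ℝ) + 1) ^ e * A + A ^ (1 - p / 2) *
          (C₁ * ((m : ℝ) + 1) ^ e * Real.sqrt (((m : ℝ) + 1) ^ (a + 1 - e) * 2 ^ m / K)))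
        (K + 1) := by
  obtain ⟨Cq, hCq, hcardQ⟩ := hcard e
  obtain ⟨Cg, hCg, hgauss⟩ := Pool.Agent.Helper77.SB.gauss_sup (e + 1)
  set C₁ : ℝ := C * Cg * Real.sqrt (8 * (Cq * (e + 2))) with hC₁
  refine ⟨max C₁ 1, le_max_right _ _, fun m K hK => ?_⟩
  have hm1 : (0 : ℝ) < (m : ℝ) + 1 := by positivity
  set D : ℝ := C * ((m : ℝ) + 1) ^ (a / 2) with hD
  have hDpos : 0 < D := mul_pos (by linarith) (Real.rpow_pos_of_pos hm1 _)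
  set l : ℝ := Cg * Real.sqrt (Cq * ((m : ℝ) + 1) ^ e * 2 ^ m * ((e + 2) * ((m : ℝ) + 1))) with hl
  have hlpos : 0 < l := mul_pos hCg (Real.sqrt_pos.2 (by positivity))
  have hint : ∫ y, supn (Qs (e + 1) m) y ∂(gau (Qs (e + 1) m × Bool)) ≤ l := by
    refine (hgauss (m + e + 1) (Qs (e + 1) m) (Qs_le e m)).trans ?_
    rw [hl]
    apply mul_le_mul_of_nonneg_left _ hCg.le
    apply Real.sqrt_le_sqrt
    have h1 : (((m + e + 1 : ℕ) : ℝ) + 1) ≤ (e + 2) * ((m : ℝ) + 1) := by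
      push_cast
      have hm : (0 : ℝ) ≤ m := Nat.cast_nonneg m
      have he : (0 : ℝ) ≤ e := Nat.cast_nonneg e
      nlinarith [mul_nonneg he hm]
    exact mul_le_mul (hcardQ m) h1 (by positivity) (by positivity)
  have hΛ : 0 ≤ C * ((m : ℝ) + 1) ^ e := by positivity
  have h0 : ∀ y ∈ Ys e p a C m, ∑ i, (y i) ^ 2 ≤ D ^ 2 := by
    rintro y ⟨hy, _⟩
    rw [hD, D_sq]
    exact hy
  have h1 : ∀ A : ℝ, 1 ≤ A → ∀ y ∈ Ys e p a C m, ∃ u v : Qs (e + 1) m × Bool → ℝ, y = u + v ∧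
      supn (Qs (e + 1) m) u ≤ C * ((m : ℝ) + 1) ^ e * A ∧
      ∑ i, (v i) ^ 2 ≤ D ^ 2 * A ^ (2 - p) := by
    rintro A hA y ⟨_, hy⟩
    obtain ⟨u, v, huv, hu, hv⟩ := hy A hA
    refine ⟨u, v, huv, supn_le _ _ fun x => ?_, ?_⟩
    · refine (hu x).trans (le_of_eq ?_)
      ring
    · rw [hD, D_sq]
      refine hv.trans (le_of_eq ?_)
      ring
  obtain ⟨hA1, hA2⟩ := small_cov (supn (Qs (e + 1) m)) l hlpos hint (Ys e p a C m) D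
    (C * ((m : ℝ) + 1) ^ e) p hDpos hΛ h0 h1 (K / 8) (by positivity)
  have hKK : 8 * (K / 8) + Real.log 2 ≤ K + 1 := by
    have := log_two_le_one
    linarith
  have hC₁0 : 0 ≤ C₁ := by positivity
  have hmain : D * l / Real.sqrt (K / 8) =
      C₁ * ((m : ℝ) + 1) ^ e * Real.sqrt (((m : ℝ) + 1) ^ (a + 1 - e) * 2 ^ m / K) := by
    have ha1 : 0 < ((m : ℝ) + 1) ^ (a + 1 - e) := Real.rpow_pos_of_pos hm1 _
    have ha2 : 0 < ((m : ℝ) + 1) ^ a := Real.rpow_pos_of_pos hm1 _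
    have e3 : ((m : ℝ) + 1) ^ (a + 1 - e) * (((m : ℝ) + 1) ^ e) ^ 2 =
        ((m : ℝ) + 1) ^ a * ((m : ℝ) + 1) ^ e * ((m : ℝ) + 1) := by
      have e4 : ((m : ℝ) + 1) ^ (a + 1 - e) * ((m : ℝ) + 1) ^ e = ((m : ℝ) + 1) ^ (a + 1) := by
        rw [← Real.rpow_natCast _ e, ← Real.rpow_add hm1]
        congr 1
        ring
      have e5 : ((m : ℝ) + 1) ^ (a + 1) = ((m : ℝ) + 1) ^ a * ((m : ℝ) + 1) := by
        rw [Real.rpow_add hm1, Real.rpow_one]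
      calc ((m : ℝ) + 1) ^ (a + 1 - e) * (((m : ℝ) + 1) ^ e) ^ 2
          = (((m : ℝ) + 1) ^ (a + 1 - e) * ((m : ℝ) + 1) ^ e) * ((m : ℝ) + 1) ^ e := by ring
        _ = _ := by rw [e4, e5]; ring
    have hl0 : 0 ≤ D * l / Real.sqrt (K / 8) := by positivity
    have hr0 : 0 ≤ C₁ * ((m : ℝ) + 1) ^ e *
        Real.sqrt (((m : ℝ) + 1) ^ (a + 1 - e) * 2 ^ m / K) := by positivity
    rw [← sq_eq_sq₀ hl0 hr0]
    have s1 : D ^ 2 = C ^ 2 * ((m : ℝ) + 1) ^ a := by rw [hD, D_sq]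
    have s2 : l ^ 2 = Cg ^ 2 * (Cq * ((m : ℝ) + 1) ^ e * 2 ^ m * ((e + 2) * ((m : ℝ) + 1))) := by
      rw [hl, mul_pow, Real.sq_sqrt (by positivity)]
    have s3 : Real.sqrt (K / 8) ^ 2 = K / 8 := Real.sq_sqrt (by positivity)
    have s4 : C₁ ^ 2 = C ^ 2 * Cg ^ 2 * (8 * (Cq * (e + 2))) := by
      rw [hC₁, mul_pow, mul_pow, Real.sq_sqrt (by positivity)]
    have s5 : Real.sqrt (((m : ℝ) + 1) ^ (a + 1 - e) * 2 ^ m / K) ^ 2 =
        ((m : ℝ) + 1) ^ (a + 1 - e) * 2 ^ m / K := Real.sq_sqrt (by positivity)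
    have hL : (D * l / Real.sqrt (K / 8)) ^ 2 = D ^ 2 * l ^ 2 / Real.sqrt (K / 8) ^ 2 := by ring
    have hR : (C₁ * ((m : ℝ) + 1) ^ e *
        Real.sqrt (((m : ℝ) + 1) ^ (a + 1 - e) * 2 ^ m / K)) ^ 2 =
        C₁ ^ 2 * (((m : ℝ) + 1) ^ e) ^ 2 *
          Real.sqrt (((m : ℝ) + 1) ^ (a + 1 - e) * 2 ^ m / K) ^ 2 := by ring
    rw [hL, hR, s1, s2, s3, s4, s5]
    have e6 : C ^ 2 * Cg ^ 2 * (8 * (Cq * ((e : ℝ) + 2))) * (((m : ℝ) + 1) ^ e) ^ 2 *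
        (((m : ℝ) + 1) ^ (a + 1 - e) * 2 ^ m / K) =
        C ^ 2 * Cg ^ 2 * (8 * (Cq * ((e : ℝ) + 2))) *
          (((m : ℝ) + 1) ^ (a + 1 - e) * (((m : ℝ) + 1) ^ e) ^ 2) * 2 ^ m / K := by ring
    rw [e6, e3]
    field_simp
  have hC₁le : C₁ * ((m : ℝ) + 1) ^ e * Real.sqrt (((m : ℝ) + 1) ^ (a + 1 - e) * 2 ^ m / K) ≤
      max C₁ 1 * ((m : ℝ) + 1) ^ e *
        Real.sqrt (((m : ℝ) + 1) ^ (a + 1 - e) * 2 ^ m / K) := by
    gcongr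
    exact le_max_left _ _
  constructor
  · refine CovF.mono' (covF_of_cov _ _ _ (SLev_sub e p a C m) hA1) ?_ hKK
    rw [hmain]
    exact hC₁le
  · intro A hA
    have hA0 : 0 < A := by linarith
    refine CovF.mono' (covF_of_cov _ _ _ (SLev_sub e p a C m) (hA2 A hA)) ?_ hKK
    have : D * A ^ (1 - p / 2) * l / Real.sqrt (K / 8) =
        A ^ (1 - p / 2) * (D * l / Real.sqrt (K / 8)) := by ring
    rw [this, hmain]
    have hpos : 0 ≤ A ^ (1 - p / 2) := (Real.rpow_pos_of_pos hA0 _).le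
    exact add_le_add le_rfl (mul_le_mul_of_nonneg_left hC₁le hpos)

theorem slev_A_of
    (hcard : ∀ e : ℕ, ∃ C ≥ (1 : ℝ), ∀ m, ((Qs (e + 1) m).card : ℝ) ≤
      C * ((m : ℝ) + 1) ^ e * 2 ^ m)
    (e : ℕ) (p a C : ℝ) (hC : 1 ≤ C) :
    ∃ C' ≥ 1, ∀ (m : ℕ) (K : ℝ), 0 < K → CovF (SLev e p a C m)
      (C' * ((m : ℝ) + 1) ^ e * Real.sqrt (((m : ℝ) + 1) ^ (a + 1 - e) * 2 ^ m / K)) (K + 1) := by
  obtain ⟨C₁, hC₁, h⟩ := slev_aux hcard e p a C hC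
  exact ⟨C₁, hC₁, fun m K hK => (h m K hK).1⟩

theorem slev_B_of
    (hcard : ∀ e : ℕ, ∃ C ≥ (1 : ℝ), ∀ m, ((Qs (e + 1) m).card : ℝ) ≤
      C * ((m : ℝ) + 1) ^ e * 2 ^ m)
    (e : ℕ) (p a C : ℝ) (hp : 2 < p) (hC : 1 ≤ C) :
    ∃ C' ≥ 1, ∀ (m : ℕ) (K : ℝ), 0 < K → CovF (SLev e p a C m)
      (C' * ((m : ℝ) + 1) ^ e * (((m : ℝ) + 1) ^ (a + 1 - e) * 2 ^ m / K) ^ (1 / p)) (K + 1) := by
  obtain ⟨C₁, hC₁, h⟩ := slev_aux hcard e p a C hC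
  refine ⟨C + C₁, by linarith, fun m K hK => ?_⟩
  obtain ⟨hA, hB⟩ := h m K hK
  have hm1 : (0 : ℝ) < (m : ℝ) + 1 := by positivity
  have hp0 : 0 < p := by linarith
  set t : ℝ := ((m : ℝ) + 1) ^ (a + 1 - e) * 2 ^ m / K with ht
  have htpos : 0 < t := by
    have : 0 < ((m : ℝ) + 1) ^ (a + 1 - e) := Real.rpow_pos_of_pos hm1 _
    positivity
  have htp : 0 < t ^ (1 / p) := Real.rpow_pos_of_pos htpos _
  have hme : 0 < ((m : ℝ) + 1) ^ e := by positivity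
  rcases le_or_gt 1 t with h1 | h1
  · have hA1 : 1 ≤ t ^ (1 / p) := Real.one_le_rpow h1 (by positivity)
    refine CovF.mono' (hB _ hA1) ?_ le_rfl
    have e1 : (t ^ (1 / p)) ^ (1 - p / 2) * Real.sqrt t = t ^ (1 / p) := by
      rw [Real.sqrt_eq_rpow, ← Real.rpow_mul htpos.le, ← Real.rpow_add htpos]
      congr 1
      field_simp
      ring
    have e2 : (t ^ (1 / p)) ^ (1 - p / 2) * (C₁ * ((m : ℝ) + 1) ^ e * Real.sqrt t) =
        C₁ * ((m : ℝ) + 1) ^ e * t ^ (1 / p) := by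
      calc (t ^ (1 / p)) ^ (1 - p / 2) * (C₁ * ((m : ℝ) + 1) ^ e * Real.sqrt t)
          = C₁ * ((m : ℝ) + 1) ^ e * ((t ^ (1 / p)) ^ (1 - p / 2) * Real.sqrt t) := by ring
        _ = _ := by rw [e1]
    rw [e2]
    apply le_of_eq
    ring
  · refine CovF.mono' hA ?_ le_rfl
    have e1 : Real.sqrt t ≤ t ^ (1 / p) := by
      rw [Real.sqrt_eq_rpow]
      apply Real.rpow_le_rpow_of_exponent_ge htpos h1.le
      rw [div_le_div_iff₀ hp0 two_pos]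
      linarith
    calc C₁ * ((m : ℝ) + 1) ^ e * Real.sqrt t ≤ C₁ * ((m : ℝ) + 1) ^ e * t ^ (1 / p) := by
          gcongr
      _ ≤ (C + C₁) * ((m : ℝ) + 1) ^ e * t ^ (1 / p) := by
          gcongr
          linarith

end Pool.Agent.Helper36.SB
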