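import Pool.Agent.Helper36.SB.M13

/-! Module M14 of MP_7fc85e_an (stage 3A): joint covering of a window of levels. -/

open Finset MeasureTheory
open scoped ENNReal Real
open Pool.Agent.Helper60.SB

namespace Pool.Agent.Helper36.SB

lemma mem_Qs (e m : ℕ) (k : Fin (e + 1) → ℤ) :
    k ∈ Qs (e + 1) m ↔ m ≤ ∑ j, lev k j ∧ ∑ j, lev k j ≤ m + e + 1 := by
  unfold Qs
  rw [Finset.mem_biUnion]
  constructor
  · rintro ⟨i, hi, hk⟩
    rw [mem_Qm] at hk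
    rw [Finset.mem_range] at hi
    omega
  · rintro ⟨h1, h2⟩
    refine ⟨∑ j, lev k j - m, ?_, ?_⟩
    · rw [Finset.mem_range]; omega
    · rw [mem_Qm]; omega

/-- the weight -/
noncomputable def zt (e : ℕ) (k : Fin (e + 1) → ℤ) : ℝ := (2 : ℝ) ^ (-((∑ j, lev k j : ℕ) : ℝ) / 2)

lemma zt_pos (e : ℕ) (k : Fin (e + 1) → ℤ) : 0 < zt e k := Real.rpow_pos_of_pos two_pos _

lemma zt_sq (e : ℕ) (k : Fin (e + 1) → ℤ) : zt e k ^ 2 = ((2 : ℝ) ^ (∑ j, lev k j))⁻¹ := by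
  unfold zt
  rw [← Real.rpow_natCast, ← Real.rpow_mul two_pos.le, ← Real.rpow_natCast 2, ← Real.rpow_neg
    two_pos.le]
  congr 1
  push_cast
  ring

lemma sum_dite_sub {α E : Type*} [DecidableEq α] [AddCommMonoid E] (P Q : Finset α) (hPQ : P ⊆ Q)
    (f : P → E) : ∑ k : Q, (if h : (k : α) ∈ P then f ⟨k, h⟩ else 0) = ∑ k : P, f k := by
  have h1 : ∑ k : Q, (if h : (k : α) ∈ P then f ⟨k, h⟩ else 0) =
      ∑ a ∈ Q, (if h : a ∈ P then f ⟨a, h⟩ else 0) :=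
    Finset.sum_coe_sort Q (fun a => if h : a ∈ P then f ⟨a, h⟩ else 0)
  have h2 : ∑ k : P, f k = ∑ a ∈ P, (if h : a ∈ P then f ⟨a, h⟩ else 0) := by
    rw [← Finset.sum_coe_sort P (fun a => if h : a ∈ P then f ⟨a, h⟩ else 0)]
    refine Finset.sum_congr rfl fun k _ => ?_
    rw [dif_pos k.2]
  rw [h1, h2]
  symm
  refine Finset.sum_subset hPQ fun a _ ha => ?_
  rw [dif_neg ha]

lemma sum_biUnion_le' {ι α : Type*} [DecidableEq ι] [DecidableEq α] (s : Finset ι)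
    (t : ι → Finset α) (f : α → ℝ) (hf : ∀ a, 0 ≤ f a) :
    ∑ a ∈ s.biUnion t, f a ≤ ∑ i ∈ s, ∑ a ∈ t i, f a := by
  induction s using Finset.induction_on with
  | empty => simp
  | insert i s hi ih =>
    rw [Finset.biUnion_insert, Finset.sum_insert hi]
    have h := Finset.sum_union_inter (s₁ := t i) (s₂ := s.biUnion t) (f := f)
    have h2 : 0 ≤ ∑ a ∈ t i ∩ s.biUnion t, f a := Finset.sum_nonneg fun a _ => hf a
    linarith

/-- multiplication by the weight -/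
noncomputable def wmap {d : ℕ} (Q : Finset (Fin d → ℤ)) (ζ : (Fin d → ℤ) → ℝ) :
    (Q × Bool → ℝ) →ₗ[ℝ] (Q × Bool → ℝ) where
  toFun w := fun i => ζ i.1 * w i
  map_add' u v := by
    funext i
    simp only [Pi.add_apply]
    ring
  map_smul' c u := by
    funext i
    simp only [Pi.smul_apply, smul_eq_mul, RingHom.id_apply]
    ring

open Classical in
/-- the joint coefficient vector of a window -/
noncomputable def jw (e m₀ m₁ : ℕ) (Q : Finset (Fin (e + 1) → ℤ))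
    (y : (m : ℕ) → (Qs (e + 1) m × Bool → ℝ)) (i : Q × Bool) : ℝ :=
  ∑ m ∈ Finset.Ico m₀ m₁, (if h : (i.1 : Fin (e + 1) → ℤ) ∈ Qs (e + 1) m then
    (2 : ℝ) ^ (-(1 / 2 * (m : ℝ))) * y m (⟨i.1, h⟩, i.2) / zt e i.1 else 0)

open Classical in
lemma TT_jw (e m₀ m₁ : ℕ) (Q : Finset (Fin (e + 1) → ℤ))
    (hQ : ∀ m ∈ Finset.Ico m₀ m₁, Qs (e + 1) m ⊆ Q)
    (y : (m : ℕ) → (Qs (e + 1) m × Bool → ℝ)) (x : Fin (e + 1) → ℝ) :
    TT Q (wmap Q (zt e) (jw e m₀ m₁ Q y)) x =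
      ∑ m ∈ Finset.Ico m₀ m₁, (((2 : ℝ) ^ (-(1 / 2 * (m : ℝ))) : ℝ) : ℂ) *
          TT (Qs (e + 1) m) (y m) x := by
  have h1 : ∀ k : Q, cco (wmap Q (zt e) (jw e m₀ m₁ Q y)) k * ex (k : Fin (e + 1) → ℤ) x =
      ∑ m ∈ Finset.Ico m₀ m₁, (if h : (k : Fin (e + 1) → ℤ) ∈ Qs (e + 1) m then
        (((2 : ℝ) ^ (-(1 / 2 * (m : ℝ))) : ℝ) : ℂ) * (cco (y m) ⟨k, h⟩ *
          ex (k : Fin (e + 1) → ℤ) x) else 0) := by
    intro k
    have hz := (zt_pos e k).ne'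
    have h2 : ∀ b : Bool, wmap Q (zt e) (jw e m₀ m₁ Q y) (k, b) =
        ∑ m ∈ Finset.Ico m₀ m₁, (if h : (k : Fin (e + 1) → ℤ) ∈ Qs (e + 1) m then
          (2 : ℝ) ^ (-(1 / 2 * (m : ℝ))) * y m (⟨k, h⟩, b) else 0) := by
      intro b
      show zt e k * jw e m₀ m₁ Q y (k, b) = _
      unfold jw
      rw [Finset.mul_sum]
      refine Finset.sum_congr rfl fun m _ => ?_
      split_ifs with h
      · field_simp
      · rw [mul_zero]
    unfold cco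
    rw [h2, h2]
    push_cast
    rw [Finset.sum_mul, ← Finset.sum_add_distrib, Finset.sum_mul]
    refine Finset.sum_congr rfl fun m _ => ?_
    split_ifs with h
    · push_cast
      ring
    · simp
  unfold TT
  rw [Finset.sum_congr rfl fun k _ => h1 k, Finset.sum_comm]
  refine Finset.sum_congr rfl fun m hm => ?_
  rw [sum_dite_sub (Qs (e + 1) m) Q (hQ m hm) (fun k => (((2 : ℝ) ^ (-(1 / 2 * (m : ℝ))) : ℝ) : ℂ) *
    (cco (y m) k * ex (k : Fin (e + 1) → ℤ) x)), Finset.mul_sum]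

open Classical in
lemma jw_sq (e m₀ m₁ : ℕ) (Q : Finset (Fin (e + 1) → ℤ))
    (hQ : ∀ m ∈ Finset.Ico m₀ m₁, Qs (e + 1) m ⊆ Q)
    (y : (m : ℕ) → (Qs (e + 1) m × Bool → ℝ)) :
    ∑ i, (jw e m₀ m₁ Q y i) ^ 2 ≤
      (e + 2) * 2 ^ (e + 1) * ∑ m ∈ Finset.Ico m₀ m₁, ∑ i, (y m i) ^ 2 := by
  have h1 : ∀ i : Q × Bool, (jw e m₀ m₁ Q y i) ^ 2 ≤
      ∑ m ∈ Finset.Ico m₀ m₁, (if h : (i.1 : Fin (e + 1) → ℤ) ∈ Qs (e + 1) m then
        ((e : ℝ) + 2) * 2 ^ (e + 1) * (y m (⟨i.1, h⟩, i.2)) ^ 2 else 0) := by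
    intro i
    set k : Fin (e + 1) → ℤ := (i.1 : Fin (e + 1) → ℤ) with hk
    set s := (Finset.Ico m₀ m₁).filter (fun m => k ∈ Qs (e + 1) m) with hs
    have hcard : (s.card : ℝ) ≤ (e : ℝ) + 2 := by
      have h2 : s ⊆ Finset.Icc (∑ j, lev k j - (e + 1)) (∑ j, lev k j) := by
        intro m hm
        rw [hs, Finset.mem_filter, mem_Qs] at hm
        rw [Finset.mem_Icc]
        omega
      have h3 := Finset.card_le_card h2
      rw [Nat.card_Icc] at h3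
      have h4 : s.card ≤ e + 2 := by omega
      exact_mod_cast h4
    have h5 : jw e m₀ m₁ Q y i = ∑ m ∈ s, (if h : k ∈ Qs (e + 1) m then
        (2 : ℝ) ^ (-(1 / 2 * (m : ℝ))) * y m (⟨k, h⟩, i.2) / zt e k else 0) := by
      unfold jw
      rw [hs, Finset.sum_filter]
      refine Finset.sum_congr rfl fun m _ => ?_
      by_cases h : k ∈ Qs (e + 1) m
      · rw [if_pos h]
      · rw [if_neg h, dif_neg h]
    rw [h5]
    have h6 := sq_sum_le_card_mul_sum_sq (s := s) (f := fun m => (if h : k ∈ Qs (e + 1) m then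
        (2 : ℝ) ^ (-(1 / 2 * (m : ℝ))) * y m (⟨k, h⟩, i.2) / zt e k else 0))
    refine h6.trans ?_
    have h7 : ∀ m ∈ s, (if h : k ∈ Qs (e + 1) m then
        (2 : ℝ) ^ (-(1 / 2 * (m : ℝ))) * y m (⟨k, h⟩, i.2) / zt e k else 0) ^ 2 ≤
        (if h : k ∈ Qs (e + 1) m then 2 ^ (e + 1) * (y m (⟨k, h⟩, i.2)) ^ 2 else 0) := by
      intro m hm
      have hkm : k ∈ Qs (e + 1) m := by
        rw [hs, Finset.mem_filter] at hm
        exact hm.2
      rw [dif_pos hkm, dif_pos hkm, div_pow, mul_pow, zt_sq, div_inv_eq_mul]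
      have e1 : ((2 : ℝ) ^ (-(1 / 2 * (m : ℝ)))) ^ 2 = ((2 : ℝ) ^ m)⁻¹ := by
        rw [← Real.rpow_natCast, ← Real.rpow_mul two_pos.le, ← Real.rpow_natCast 2 m,
          ← Real.rpow_neg two_pos.le]
        congr 1
        push_cast
        ring
      rw [e1]
      obtain ⟨h8, h9⟩ := (mem_Qs e m k).1 hkm
      have h10 : ((2 : ℝ) ^ m)⁻¹ * (2 : ℝ) ^ (∑ j, lev k j) ≤ 2 ^ (e + 1) := by
        rw [inv_mul_le_iff₀ (by positivity), ← pow_add]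
        exact pow_le_pow_right₀ (by norm_num) (by omega)
      calc ((2 : ℝ) ^ m)⁻¹ * y m (⟨k, hkm⟩, i.2) ^ 2 * (2 : ℝ) ^ (∑ j, lev k j)
          = ((2 : ℝ) ^ m)⁻¹ * (2 : ℝ) ^ (∑ j, lev k j) * y m (⟨k, hkm⟩, i.2) ^ 2 := by ring
        _ ≤ 2 ^ (e + 1) * y m (⟨k, hkm⟩, i.2) ^ 2 :=
            mul_le_mul_of_nonneg_right h10 (sq_nonneg _)
    calc (s.card : ℝ) * ∑ m ∈ s, (if h : k ∈ Qs (e + 1) m then
          (2 : ℝ) ^ (-(1 / 2 * (m : ℝ))) * y m (⟨k, h⟩, i.2) / zt e k else 0) ^ 2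
        ≤ ((e : ℝ) + 2) * ∑ m ∈ s,
          (if h : k ∈ Qs (e + 1) m then 2 ^ (e + 1) * (y m (⟨k, h⟩, i.2)) ^ 2 else 0) := by
          refine mul_le_mul hcard (Finset.sum_le_sum h7)
            (Finset.sum_nonneg fun m _ => sq_nonneg _) (by positivity)
      _ = ∑ m ∈ s, (if h : k ∈ Qs (e + 1) m then
          ((e : ℝ) + 2) * 2 ^ (e + 1) * (y m (⟨k, h⟩, i.2)) ^ 2 else 0) := by
          rw [Finset.mul_sum]
          refine Finset.sum_congr rfl fun m _ => ?_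
          split_ifs
          · ring
          · ring
      _ ≤ _ := by
          refine Finset.sum_le_sum_of_subset_of_nonneg (Finset.filter_subset _ _)
            fun m _ _ => ?_
          split_ifs
          · positivity
          · exact le_rfl
  calc ∑ i, (jw e m₀ m₁ Q y i) ^ 2
      ≤ ∑ i : Q × Bool, ∑ m ∈ Finset.Ico m₀ m₁,
        (if h : (i.1 : Fin (e + 1) → ℤ) ∈ Qs (e + 1) m then
        ((e : ℝ) + 2) * 2 ^ (e + 1) * (y m (⟨i.1, h⟩, i.2)) ^ 2 else 0) :=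
        Finset.sum_le_sum fun i _ => h1 i
    _ = ∑ m ∈ Finset.Ico m₀ m₁, ∑ i : Q × Bool,
        (if h : (i.1 : Fin (e + 1) → ℤ) ∈ Qs (e + 1) m then
        ((e : ℝ) + 2) * 2 ^ (e + 1) * (y m (⟨i.1, h⟩, i.2)) ^ 2 else 0) := Finset.sum_comm
    _ = (e + 2) * 2 ^ (e + 1) * ∑ m ∈ Finset.Ico m₀ m₁, ∑ i, (y m i) ^ 2 := by
        rw [Finset.mul_sum]
        refine Finset.sum_congr rfl fun m hm => ?_
        rw [Fintype.sum_prod_type, Fintype.sum_prod_type, Finset.mul_sum]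
        have h2 : ∀ k : Q, ∑ b : Bool, (if h : (k : Fin (e + 1) → ℤ) ∈ Qs (e + 1) m then
            ((e : ℝ) + 2) * 2 ^ (e + 1) * (y m (⟨k, h⟩, b)) ^ 2 else 0) =
            (if h : (k : Fin (e + 1) → ℤ) ∈ Qs (e + 1) m then
            (((e : ℝ) + 2) * 2 ^ (e + 1) * ∑ b : Bool, (y m (⟨k, h⟩, b)) ^ 2) else 0) := by
          intro k
          split_ifs
          · rw [Finset.mul_sum]
          · simp
        rw [Finset.sum_congr rfl fun k _ => h2 k]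
        exact sum_dite_sub (Qs (e + 1) m) Q (hQ m hm)
          (fun k => ((e : ℝ) + 2) * 2 ^ (e + 1) * ∑ b : Bool, (y m (k, b)) ^ 2)

/-- M14, with M6 (`card_Qs`) and M11 (`gauss_sup_w`) as hypotheses -/
theorem window_cov_of
    (hcard : ∀ e : ℕ, ∃ C ≥ (1 : ℝ), ∀ m, ((Qs (e + 1) m).card : ℝ) ≤
      C * ((m : ℝ) + 1) ^ e * 2 ^ m)
    (hgauss : ∀ d : ℕ, ∃ C : ℝ, 0 < C ∧ ∀ (m : ℕ) (Q : Finset (Fin d → ℤ))
      (ζ : (Fin d → ℤ) → ℝ), (∀ k ∈ Q, ∀ j, |k j| ≤ 2 ^ m) →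
      ∫ y, supn Q (fun i => ζ i.1 * y i) ∂(gau (Q × Bool)) ≤
        C * Real.sqrt ((∑ k ∈ Q, ζ k ^ 2) * (m + 1)))
    (e : ℕ) : ∃ C ≥ 1, ∀ (m₀ m₁ : ℕ) (D K : ℝ), 0 < D → 0 < K →
    CovF {g : (Fin (e + 1) → ℝ) → ℂ | ∃ y : (m : ℕ) → (Qs (e + 1) m × Bool → ℝ),
        ∑ m ∈ Finset.Ico m₀ m₁, ∑ i, (y m i) ^ 2 ≤ D ^ 2 ∧
        g = fun x => ∑ m ∈ Finset.Ico m₀ m₁, (((2 : ℝ) ^ (-(1 / 2 * (m : ℝ))) : ℝ) : ℂ) *
          TT (Qs (e + 1) m) (y m) x}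
      (C * D * Real.sqrt (((m₁ - m₀ : ℕ) : ℝ) * ((m₁ : ℝ) + 1) ^ (e + 1) / K)) (K + 1) := by
  classical
  obtain ⟨Cq, hCq, hcardQ⟩ := hcard e
  obtain ⟨Cg, hCg, hG⟩ := hgauss (e + 1)
  set C₁ : ℝ := Real.sqrt ((e + 2) * 2 ^ (e + 1)) * (Cg * Real.sqrt (8 * (Cq * (e + 2)))) with hC₁
  refine ⟨max C₁ 1, le_max_right _ _, fun m₀ m₁ D K hD hK => ?_⟩
  rcases le_or_gt m₁ m₀ with hm | hm
  · -- the empty window
    refine ⟨{0}, ?_, ?_, ?_⟩
    · rw [Finset.card_singleton, Nat.cast_one]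
      exact Real.one_le_exp (by linarith)
    · intro g hg
      rw [Finset.mem_singleton] at hg
      rw [hg]
      exact MemLp.zero
    · rintro g ⟨y, _, rfl⟩
      refine ⟨0, Finset.mem_singleton_self _, fun x => ?_⟩
      rw [Finset.Ico_eq_empty (by omega)]
      simp only [Finset.sum_empty, Pi.zero_apply, sub_self, norm_zero]
      positivity
  · set Q : Finset (Fin (e + 1) → ℤ) := (Finset.Ico m₀ m₁).biUnion fun m => Qs (e + 1) m with hQdef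
    have hQ : ∀ m ∈ Finset.Ico m₀ m₁, Qs (e + 1) m ⊆ Q := fun m hm' =>
      Finset.subset_biUnion_of_mem (fun m => Qs (e + 1) m) hm'
    have hQle : ∀ k ∈ Q, ∀ j, |k j| ≤ 2 ^ (m₁ + e + 1) := by
      intro k hk j
      rw [hQdef, Finset.mem_biUnion] at hk
      obtain ⟨m, hm', hk'⟩ := hk
      rw [Finset.mem_Ico] at hm'
      exact (Qs_le e m k hk' j).trans (pow_le_pow_right₀ (by norm_num) (by omega))
    set W : ℝ := ((m₁ - m₀ : ℕ) : ℝ) with hW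
    have hWpos : 0 < W := by
      rw [hW]
      exact_mod_cast Nat.sub_pos_of_lt hm
    have hm1 : (0 : ℝ) < (m₁ : ℝ) + 1 := by positivity
    have hsum : ∑ k ∈ Q, zt e k ^ 2 ≤ W * (Cq * ((m₁ : ℝ) + 1) ^ e) := by
      have h1 : ∑ k ∈ Q, zt e k ^ 2 ≤ ∑ m ∈ Finset.Ico m₀ m₁, ∑ k ∈ Qs (e + 1) m, zt e k ^ 2 := by
        rw [hQdef]
        exact sum_biUnion_le' _ _ _ (fun _ => sq_nonneg _)
      have h2 : ∀ m ∈ Finset.Ico m₀ m₁, ∑ k ∈ Qs (e + 1) m, zt e k ^ 2 ≤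
          Cq * ((m₁ : ℝ) + 1) ^ e := by
        intro m hm'
        rw [Finset.mem_Ico] at hm'
        have h3 : ∀ k ∈ Qs (e + 1) m, zt e k ^ 2 ≤ ((2 : ℝ) ^ m)⁻¹ := by
          intro k hk
          rw [zt_sq]
          apply inv_anti₀ (by positivity)
          exact pow_le_pow_right₀ (by norm_num) ((mem_Qs e m k).1 hk).1
        calc ∑ k ∈ Qs (e + 1) m, zt e k ^ 2 ≤ ∑ k ∈ Qs (e + 1) m, ((2 : ℝ) ^ m)⁻¹ :=
              Finset.sum_le_sum h3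
          _ = (Qs (e + 1) m).card * ((2 : ℝ) ^ m)⁻¹ := by rw [Finset.sum_const, nsmul_eq_mul]
          _ ≤ (Cq * ((m : ℝ) + 1) ^ e * 2 ^ m) * ((2 : ℝ) ^ m)⁻¹ := by
              gcongr
              exact hcardQ m
          _ = Cq * ((m : ℝ) + 1) ^ e := by field_simp
          _ ≤ Cq * ((m₁ : ℝ) + 1) ^ e := by
              gcongr
              exact hm'.2.le
      refine h1.trans ((Finset.sum_le_sum h2).trans ?_)
      rw [Finset.sum_const, nsmul_eq_mul, Nat.card_Ico]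
    set q : Seminorm ℝ (Q × Bool → ℝ) := (supn Q).comp (wmap Q (zt e)) with hq
    set l : ℝ := Cg * Real.sqrt (W * (Cq * ((m₁ : ℝ) + 1) ^ e) * ((e + 2) * ((m₁ : ℝ) + 1))) with hl
    have hlpos : 0 < l := mul_pos hCg (Real.sqrt_pos.2 (by positivity))
    have hint : ∫ y, q y ∂(gau (Q × Bool)) ≤ l := by
      refine (hG (m₁ + e + 1) Q (zt e) hQle).trans ?_
      rw [hl]
      apply mul_le_mul_of_nonneg_left _ hCg.le
      apply Real.sqrt_le_sqrt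
      have h1 : (((m₁ + e + 1 : ℕ) : ℝ) + 1) ≤ (e + 2) * ((m₁ : ℝ) + 1) := by
        push_cast
        have hm : (0 : ℝ) ≤ m₁ := Nat.cast_nonneg m₁
        have he : (0 : ℝ) ≤ e := Nat.cast_nonneg e
        nlinarith [mul_nonneg he hm]
      exact mul_le_mul hsum h1 (by positivity) (by positivity)
    set D' : ℝ := Real.sqrt ((e + 2) * 2 ^ (e + 1)) * D with hD'
    have hD'pos : 0 < D' := mul_pos (Real.sqrt_pos.2 (by positivity)) hD
    obtain ⟨t, ht, hcov⟩ := ball_cov q l hlpos hint (K / 8) (by positivity) D' hD'pos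
    refine ⟨t.image (fun z => TT Q (wmap Q (zt e) z)), ?_, ?_, ?_⟩
    · refine le_trans (by exact_mod_cast Finset.card_image_le) (ht.trans ?_)
      apply Real.exp_le_exp.2
      have := log_two_le_one
      linarith
    · intro g hg
      obtain ⟨z, _, rfl⟩ := Finset.mem_image.1 hg
      exact memLp_TT Q _
    · rintro g ⟨y, hy, rfl⟩
      have h1 : ∑ i, (jw e m₀ m₁ Q y i) ^ 2 ≤ D' ^ 2 := by
        refine (jw_sq e m₀ m₁ Q hQ y).trans ?_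
        rw [hD', mul_pow, Real.sq_sqrt (by positivity)]
        exact mul_le_mul_of_nonneg_left hy (by positivity)
      obtain ⟨z, hz, hjz⟩ := hcov _ h1
      refine ⟨TT Q (wmap Q (zt e) z), Finset.mem_image_of_mem _ hz, fun x => ?_⟩
      have h2 : (∑ m ∈ Finset.Ico m₀ m₁, (((2 : ℝ) ^ (-(1 / 2 * (m : ℝ))) : ℝ) : ℂ) *
          TT (Qs (e + 1) m) (y m) x) - TT Q (wmap Q (zt e) z) x =
          TT Q (wmap Q (zt e) (jw e m₀ m₁ Q y - z)) x := by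
        rw [map_sub, TT_sub, TT_jw e m₀ m₁ Q hQ y x]
      show ‖(∑ m ∈ Finset.Ico m₀ m₁, (((2 : ℝ) ^ (-(1 / 2 * (m : ℝ))) : ℝ) : ℂ) *
          TT (Qs (e + 1) m) (y m) x) - TT Q (wmap Q (zt e) z) x‖ ≤ _
      rw [h2]
      refine (le_supn Q _ x).trans ?_
      have h3 : supn Q (wmap Q (zt e) (jw e m₀ m₁ Q y - z)) ≤ D' * l / Real.sqrt (K / 8) := hjz
      refine h3.trans ?_
      have h4 : D' * l / Real.sqrt (K / 8) =
          C₁ * D * Real.sqrt (W * ((m₁ : ℝ) + 1) ^ (e + 1) / K) := by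
        have hl0 : 0 ≤ D' * l / Real.sqrt (K / 8) := by positivity
        have hC₁0 : 0 ≤ C₁ := by positivity
        have hr0 : 0 ≤ C₁ * D * Real.sqrt (W * ((m₁ : ℝ) + 1) ^ (e + 1) / K) := by positivity
        rw [← sq_eq_sq₀ hl0 hr0]
        have s1 : D' ^ 2 = (e + 2) * 2 ^ (e + 1) * D ^ 2 := by
          rw [hD', mul_pow, Real.sq_sqrt (by positivity)]
        have s2 : l ^ 2 = Cg ^ 2 *
            (W * (Cq * ((m₁ : ℝ) + 1) ^ e) * ((e + 2) * ((m₁ : ℝ) + 1))) := by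
          rw [hl, mul_pow, Real.sq_sqrt (by positivity)]
        have s3 : Real.sqrt (K / 8) ^ 2 = K / 8 := Real.sq_sqrt (by positivity)
        have s4 : C₁ ^ 2 = (e + 2) * 2 ^ (e + 1) * (Cg ^ 2 * (8 * (Cq * (e + 2)))) := by
          rw [hC₁, mul_pow, mul_pow, Real.sq_sqrt (by positivity), Real.sq_sqrt (by positivity)]
        have s5 : Real.sqrt (W * ((m₁ : ℝ) + 1) ^ (e + 1) / K) ^ 2 =
            W * ((m₁ : ℝ) + 1) ^ (e + 1) / K := Real.sq_sqrt (by positivity)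
        have hL : (D' * l / Real.sqrt (K / 8)) ^ 2 = D' ^ 2 * l ^ 2 / Real.sqrt (K / 8) ^ 2 := by
          ring
        have hR : (C₁ * D * Real.sqrt (W * ((m₁ : ℝ) + 1) ^ (e + 1) / K)) ^ 2 =
            C₁ ^ 2 * D ^ 2 * Real.sqrt (W * ((m₁ : ℝ) + 1) ^ (e + 1) / K) ^ 2 := by ring
        rw [hL, hR, s1, s2, s3, s4, s5]
        field_simp
        ring
      rw [h4]
      gcongr
      exact le_max_left _ _

end Pool.Agent.Helper36.SB
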